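import Pool.Agent.Y859.OE.Stm

set_option autoImplicit false

/-!
# Project OE (helper859): S_SMALL
-/

namespace Pool.Agent.Y390.OE

open Finset Pool.Agent.Y859.OE

theorem t_SMALL (hp : S_PNT) : S_SMALL := by
  classical
  have h1 := Metric.tendsto_atTop.1 hp (1 / 72) (by norm_num)
  obtain ⟨X, hX⟩ := h1
  refine ⟨1 / 8, by norm_num, 2 * ⌈|X|⌉₊ + 20, fun A s hs hA => ?_⟩
  have hX0 : X ≤ (⌈|X|⌉₊ : ℝ) := (le_abs_self X).trans (Nat.le_ceil _)
  set y := A + s with hy
  set M := max A (y / 2) with hM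
  have hMy : M ≤ y := by omega
  have hM1 : ⌈|X|⌉₊ + 9 ≤ M := by omega
  have hθ : ∀ n : ℕ, ⌈|X|⌉₊ + 9 ≤ n → |Chebyshev.theta n - n| ≤ 1 / 72 * n := by
    intro n hn
    have hn0 : (0 : ℝ) < n := by
      have : 0 < n := by omega
      exact_mod_cast this
    have h2 := hX n (by
      have : (⌈|X|⌉₊ : ℝ) ≤ n := by
        have : ⌈|X|⌉₊ ≤ n := by omega
        exact_mod_cast this
      linarith)
    rw [Real.dist_eq] at h2
    have h3 : Chebyshev.theta n - n = (Chebyshev.theta n / n - 1) * n := by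
      field_simp
    rw [h3, abs_mul, abs_of_pos hn0]
    exact mul_le_mul_of_nonneg_right h2.le hn0.le
  set P := (Ioc M y).filter Nat.Prime with hP
  have hsum : ∑ p ∈ P, Real.log p = Chebyshev.theta y - Chebyshev.theta M := by
    have h2 : ∀ n : ℕ, Chebyshev.theta n = ∑ p ∈ (Ioc 0 n).filter Nat.Prime, Real.log p := by
      intro n
      unfold Chebyshev.theta
      rw [Nat.floor_natCast]
    rw [h2, h2, eq_sub_iff_add_eq]
    have h3 : (Ioc 0 y).filter Nat.Prime = P ∪ (Ioc 0 M).filter Nat.Prime := by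
      rw [hP, ← filter_union]
      congr 1
      ext j
      simp only [mem_union, mem_Ioc]
      omega
    rw [h3, sum_union]
    rw [disjoint_left]
    intro j hj hj'
    have h4 := mem_Ioc.1 (mem_filter.1 hj).1
    have h5 := mem_Ioc.1 (mem_filter.1 hj').1
    omega
  refine ⟨P, fun p hpP => ?_, ?_⟩
  · have h2 := mem_filter.1 hpP
    have h3 := mem_Ioc.1 h2.1
    exact ⟨h2.2, by omega, h3.2, by omega⟩
  · have hs0 : (20 : ℝ) ≤ s := by
      have : 20 ≤ s := by omega
      exact_mod_cast this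
    have hys : (y : ℝ) ≤ 9 * s := by
      have : y ≤ 9 * s := by omega
      exact_mod_cast this
    have hy0 : (0 : ℝ) < y := by
      have : 0 < y := by omega
      exact_mod_cast this
    have e1 := (abs_le.1 (hθ y (by omega))).1
    have e2 := (abs_le.1 (hθ M hM1)).2
    have e3 : (s : ℝ) / 2 ≤ y - M := by
      have h4 : s + 2 * M ≤ 2 * y := by omega
      have h5 : (s : ℝ) + 2 * M ≤ 2 * y := by exact_mod_cast h4
      linarith
    have e4 : (M : ℝ) ≤ y := by exact_mod_cast hMy
    have e5 : (s : ℝ) / 4 ≤ ∑ p ∈ P, Real.log p := by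
      rw [hsum]
      linarith
    have hlog : 0 < Real.log s := Real.log_pos (by linarith)
    have e6 : ∀ p ∈ P, Real.log p ≤ 2 * Real.log s := by
      intro p hpP
      have h2 := mem_filter.1 hpP
      have h3 := mem_Ioc.1 h2.1
      have h4 : (p : ℝ) ≤ (s : ℝ) ^ 2 := by
        have : (p : ℝ) ≤ y := by exact_mod_cast h3.2
        nlinarith
      have h5 := Real.log_le_log (by exact_mod_cast h2.2.pos) h4
      rwa [Real.log_pow, Nat.cast_ofNat] at h5
    have e7 : ∑ p ∈ P, Real.log p ≤ P.card * (2 * Real.log s) := by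
      have := sum_le_sum e6
      rwa [sum_const, nsmul_eq_mul] at this
    rw [div_le_iff₀ hlog]
    linarith

end Pool.Agent.Y390.OE
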